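import Pool.Agent.Q170.PO.St3
import Pool.Agent.Q170.PO.Loc1
import Pool.Agent.Q285.PO.Fact

/-! Job PX-SPREAD of helper170: spreading out. -/

set_option autoImplicit false

open Polynomial

namespace Pool.Agent.Q26.PO

open Pool.Agent.Q170.PO Filter

theorem vl_zero' {R : Type*} [CommRing R] (u : R) : vl (0 : ℤ[X]) u = 0 := by
  unfold vl
  rw [eval₂_zero]

theorem vl_C' {R : Type*} [CommRing R] (D : ℤ) (u : R) : vl (C D) u = (D : R) := by
  unfold vl
  rw [eval₂_C]
  rfl

/-- a polynomial with all complex numbers as zeros -/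
theorem eq_zero_of_vl (G : ℤ[X]) (h : ∀ x : ℂ, vl G x = 0) : G = 0 := by
  have h1 : G.map (Int.castRingHom ℂ) = 0 := by
    refine Polynomial.funext fun x => ?_
    rw [← vl_eq_eval, h x, eval_zero]
  exact (Polynomial.map_eq_zero_iff Int.cast_injective).1 h1

/-- the value at a complex point, from the rational polynomial -/
theorem vl_aeval (G : ℤ[X]) (x : ℂ) : vl G x = aeval x (G.map (Int.castRingHom ℚ)) := by
  unfold vl
  rw [aeval_def, eval₂_map]
  congr 1

/-- a polynomial vanishing at the common zeros -/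
theorem nss (R R' G : ℤ[X]) (h : ∀ x : ℂ, vl R x = 0 → vl R' x = 0 → vl G x = 0) :
    ∃ (D : ℤ) (N : ℕ) (A B : ℤ[X]), D ≠ 0 ∧ A * R + B * R' = C D * G ^ N := by
  set r := R.map (Int.castRingHom ℚ) with hr
  set r' := R'.map (Int.castRingHom ℚ) with hr'
  set g := G.map (Int.castRingHom ℚ) with hg
  have hrad : g ∈ (Ideal.span {r, r'} : Ideal ℚ[X]).radical := by
    rw [Ideal.radical_eq_sInf, Submodule.mem_sInf]
    rintro J ⟨hJ1, hJ2⟩
    have hrJ : r ∈ J := hJ1 (Ideal.subset_span (by simp))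
    have hrJ' : r' ∈ J := hJ1 (Ideal.subset_span (by simp))
    obtain ⟨q, hq⟩ := (IsPrincipalIdealRing.principal J).principal
    have hq' : J = Ideal.span {q} := hq
    rw [hq', Ideal.mem_span_singleton] at hrJ hrJ'
    change g ∈ J
    rw [hq', Ideal.mem_span_singleton]
    by_cases hq0 : q = 0
    · rw [hq0, zero_dvd_iff] at hrJ hrJ'
      have h1 : G = 0 := eq_zero_of_vl G fun x => by
        refine h x ?_ ?_
        · rw [vl_aeval, ← hr, hrJ, map_zero]
        · rw [vl_aeval, ← hr', hrJ', map_zero]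
      rw [hg, h1, Polynomial.map_zero]
      exact dvd_zero _
    · have hqp : Prime q := by
        rw [hq'] at hJ2
        exact (Ideal.span_singleton_prime hq0).1 hJ2
      have hdeg : 0 < q.degree := Polynomial.degree_pos_of_irreducible hqp.irreducible
      obtain ⟨x, hx⟩ := IsAlgClosed.exists_aeval_eq_zero ℂ q hdeg.ne'
      have hgx : aeval x g = 0 := by
        rw [hg, ← vl_aeval]
        refine h x ?_ ?_
        · rw [vl_aeval, ← hr]
          obtain ⟨s, hs⟩ := hrJ
          rw [hs, map_mul, hx, zero_mul]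
        · rw [vl_aeval, ← hr']
          obtain ⟨s, hs⟩ := hrJ'
          rw [hs, map_mul, hx, zero_mul]
      by_contra hnd
      obtain ⟨a, b, hab⟩ := (hqp.irreducible.coprime_iff_not_dvd).2 hnd
      have h2 := congrArg (aeval x) hab
      rw [map_add, map_mul, map_mul, hx, hgx, mul_zero, mul_zero, add_zero, map_one] at h2
      exact one_ne_zero h2.symm
  obtain ⟨N, hN⟩ := hrad
  obtain ⟨a, b, hab⟩ := Ideal.mem_span_pair.1 hN
  obtain ⟨da, hda, ha⟩ := IsLocalization.integerNormalization_spec (nonZeroDivisors ℤ) a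
  obtain ⟨db, hdb, hb⟩ := IsLocalization.integerNormalization_spec (nonZeroDivisors ℤ) b
  have hda0 : da ≠ 0 := nonZeroDivisors.ne_zero hda
  have hdb0 : db ≠ 0 := nonZeroDivisors.ne_zero hdb
  set A0 := IsLocalization.integerNormalization (nonZeroDivisors ℤ) a
  set B0 := IsLocalization.integerNormalization (nonZeroDivisors ℤ) b
  refine ⟨da * db, N, C db * A0, C da * B0, mul_ne_zero hda0 hdb0, ?_⟩
  have hinj : Function.Injective (Polynomial.map (Int.castRingHom ℚ)) :=
    Polynomial.map_injective _ Int.cast_injective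
  apply hinj
  have ha' : A0.map (Int.castRingHom ℚ) = C (da : ℚ) * a := by
    have h1 : A0.map (Int.castRingHom ℚ) = da • a := ha
    rw [h1, Algebra.smul_def]
    rfl
  have hb' : B0.map (Int.castRingHom ℚ) = C (db : ℚ) * b := by
    have h1 : B0.map (Int.castRingHom ℚ) = db • b := hb
    rw [h1, Algebra.smul_def]
    rfl
  have hC : ∀ z : ℤ, (C z : ℤ[X]).map (Int.castRingHom ℚ) = C (z : ℚ) := fun z => by
    rw [Polynomial.map_C]
    rfl
  rw [Polynomial.map_add, Polynomial.map_mul, Polynomial.map_mul, Polynomial.map_mul,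
    Polynomial.map_mul, Polynomial.map_mul, Polynomial.map_pow, hC, hC, hC, ha', hb', Int.cast_mul,
    C_mul, ← hr, ← hr', ← hg]
  linear_combination (C (da : ℚ) * C (db : ℚ)) * hab

theorem cast_ne {p : ℕ} (k : Type) [Field k] [CharP k p] {D : ℤ} (hD : D ≠ 0) (hp : D.natAbs < p) :
    (D : k) ≠ 0 := by
  intro h0
  rw [CharP.intCast_eq_zero_iff k p] at h0
  have h5 := Int.natCast_dvd.1 h0
  have h6 := Nat.le_of_dvd (Int.natAbs_pos.2 hD) h5
  omega

/-- spreading out of the vanishing at common zeros -/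
theorem spr (R R' G : ℤ[X]) (h : ∀ x : ℂ, vl R x = 0 → vl R' x = 0 → vl G x = 0) :
    ∀ᶠ p : ℕ in atTop, p.Prime → ∀ (k : Type) [Field k] [CharP k p] (x : k),
      vl R x = 0 → vl R' x = 0 → vl G x = 0 := by
  obtain ⟨D, N, A, B, hD, hAB⟩ := nss R R' G h
  filter_upwards [eventually_gt_atTop D.natAbs] with p hp _ k _ _ x h1 h2
  have h3 := congrArg (fun P => vl P x) hAB
  simp only [vl_add, vl_mul, vl_pow, h1, h2, mul_zero, add_zero, vl_C'] at h3
  rcases mul_eq_zero.1 h3.symm with h4 | h4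
  · exact absurd h4 (cast_ne k hD hp)
  · exact eq_zero_of_pow_eq_zero h4

theorem ev_cop (u v : ℤ[X])
    (h : IsCoprime (u.map (Int.castRingHom ℚ)) (v.map (Int.castRingHom ℚ))) :
    ∀ᶠ p : ℕ in atTop, p.Prime → IsCoprime (rd p u) (rd p v) := by
  obtain ⟨N, hN⟩ := (Pool.Agent.Q285.PO.cop_data u v h).2
  filter_upwards [eventually_gt_atTop N] with p hp h1
  exact hN p h1 hp

theorem spread : S_SPREAD := by
  intro n d f g hdeg hpos hg0 hsep hcop hcopg T π K c M h2 h1 hp
  -- conditions of `GoodQ`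
  have e1 : ∀ᶠ p : ℕ in atTop, ∀ i, p.Prime → 0 < (rd p (f i)).natDegree := by
    rw [eventually_all]
    intro i
    have hlc : (f i).leadingCoeff ≠ 0 := by
      rw [Ne, leadingCoeff_eq_zero]
      intro h0
      have := hpos i
      rw [h0, natDegree_zero] at this
      exact absurd this (lt_irrefl _)
    filter_upwards [eventually_gt_atTop (f i).leadingCoeff.natAbs] with p hp1 hp2
    have : Fact p.Prime := ⟨hp2⟩
    unfold rd
    rw [Polynomial.natDegree_map_of_leadingCoeff_ne_zero]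
    · exact hpos i
    · exact cast_ne (ZMod p) hlc hp1
  have e2 : ∀ᶠ p : ℕ in atTop, ∀ i, p.Prime → IsCoprime (rd p (f i)) (derivative (rd p (f i))) := by
    rw [eventually_all]
    intro i
    have h3 := hsep i
    rw [Polynomial.derivative_map] at h3
    filter_upwards [ev_cop _ _ h3] with p hp1 hp2
    rw [← rd_deriv]
    exact hp1 hp2
  have e3 : ∀ᶠ p : ℕ in atTop, ∀ i j, i ≠ j → p.Prime → IsCoprime (rd p (f i)) (rd p (f j)) := by
    rw [eventually_all]
    intro i
    rw [eventually_all]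
    intro j
    by_cases hij : i = j
    · exact Eventually.of_forall fun p h => absurd hij h
    · filter_upwards [ev_cop _ _ (hcop i j hij)] with p hp1 _ hp2
      exact hp1 hp2
  have e4 : ∀ᶠ p : ℕ in atTop, ∀ i j, p.Prime → IsCoprime (rd p (f i)) (rd p (g j)) := by
    rw [eventually_all]
    intro i
    rw [eventually_all]
    intro j
    exact ev_cop _ _ (hcopg i j)
  -- conditions of `NoRelQ`
  have hRel : ∀ (k : Type) [Field k] (x : k) (a b c d : ℤ[X]),
      (vl a x * vl b x) ^ M = (vl c x * vl d x) ^ M ↔ vl ((a * b) ^ M - (c * d) ^ M) x = 0 := by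
    intro k _ x a b c d
    rw [vl_sub, vl_pow, vl_pow, vl_mul, vl_mul, sub_eq_zero]
  have e5 : ∀ᶠ p : ℕ in atTop, ∀ j l j' l' : Fin n, j ≠ l → j' ≠ l' →
      ¬ ((j = j' ∧ l = l') ∨ (j = l' ∧ l = j')) → p.Prime →
      ∀ (k : Type) [Field k] [CharP k p] (x : k),
      vl ((f l * g j) ^ M - (f j * g l) ^ M) x = 0 →
      vl ((f l' * g j') ^ M - (f j' * g l') ^ M) x = 0 → vl (∏ i, g i) x = 0 := by
    rw [eventually_all]
    intro j
    rw [eventually_all]
    intro l
    rw [eventually_all]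
    intro j'
    rw [eventually_all]
    intro l'
    by_cases hc : j ≠ l ∧ j' ≠ l' ∧ ¬ ((j = j' ∧ l = l') ∨ (j = l' ∧ l = j'))
    · filter_upwards [spr ((f l * g j) ^ M - (f j * g l) ^ M)
        ((f l' * g j') ^ M - (f j' * g l') ^ M) (∏ i, g i) (by
          intro x hx1 hx2
          by_contra hne
          rw [Pool.Agent.Q285.PO.vl_prod, Finset.prod_eq_zero_iff] at hne
          push Not at hne
          rw [← hRel] at hx1 hx2
          exact h2 x (fun i => hne i (Finset.mem_univ i)) j l j' l' hc.1 hc.2.1 hc.2.2 hx1 hx2)]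
        with p hp1 _ _ _ hp2
      exact hp1 hp2
    · exact Eventually.of_forall fun p h3 h4 h5 => absurd ⟨h3, h4, h5⟩ hc
  have e6 : ∀ᶠ p : ℕ in atTop, ∀ a j l : Fin n, j ≠ l → a ≠ j → a ≠ l → p.Prime →
      ∀ (k : Type) [Field k] [CharP k p] (x : k), vl (f a) x = 0 →
      vl ((f l * g j) ^ M - (f j * g l) ^ M) x = 0 → vl (1 : ℤ[X]) x = 0 := by
    rw [eventually_all]
    intro a
    rw [eventually_all]
    intro j
    rw [eventually_all]
    intro l
    by_cases hc : j ≠ l ∧ a ≠ j ∧ a ≠ l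
    · filter_upwards [spr (f a) ((f l * g j) ^ M - (f j * g l) ^ M) 1 (by
          intro x hx1 hx2
          rw [← hRel] at hx2
          exact absurd hx2 (h1 x a j l hx1 hc.1 hc.2.1 hc.2.2))] with p hp1 _ _ _ hp2
      exact hp1 hp2
    · exact Eventually.of_forall fun p h3 h4 h5 => absurd ⟨h3, h4, h5⟩ hc
  have e7 : ∀ᶠ p : ℕ in atTop, ∀ (t : Fin T) (j l : Fin n), j ≠ l → K t j = K t l → p.Prime →
      ∀ (k : Type) [Field k] [CharP k p] (x : k), vl (π t) x = 0 →
      vl ((f l * Hq π K c t j) ^ M - (f j * Hq π K c t l) ^ M) x = 0 → vl (1 : ℤ[X]) x = 0 := by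
    rw [eventually_all]
    intro t
    rw [eventually_all]
    intro j
    rw [eventually_all]
    intro l
    by_cases hc : j ≠ l ∧ K t j = K t l
    · filter_upwards [spr (π t) ((f l * Hq π K c t j) ^ M - (f j * Hq π K c t l) ^ M) 1 (by
          intro x hx1 hx2
          rw [← hRel] at hx2
          exact absurd hx2 (hp x t j l hx1 hc.1 hc.2))] with p hp1 _ _ hp2
      exact hp1 hp2
    · exact Eventually.of_forall fun p h3 h4 => absurd ⟨h3, h4⟩ hc
  have hone : ∀ (k : Type) [Field k] (x : k), vl (1 : ℤ[X]) x ≠ 0 := by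
    intro k _ x
    unfold vl
    rw [eval₂_one]
    exact one_ne_zero
  obtain ⟨Q, hQ⟩ := eventually_atTop.1 (e1.and (e2.and (e3.and (e4.and (e5.and (e6.and e7))))))
  refine ⟨Q, fun p hpp hlt => ?_⟩
  obtain ⟨d1, d2, d3, d4, d5, d6, d7⟩ := hQ p hlt.le
  refine ⟨⟨hdeg, fun i => d1 i hpp, fun i => d2 i hpp, fun i j hij => d3 i j hij hpp,
    fun i j => d4 i j hpp⟩, ⟨?_, ?_, ?_⟩⟩
  · intro k _ _ x hx j l j' l' c1 c2 c3 c4 c5
    rw [hRel] at c4 c5
    have h3 := d5 j l j' l' c1 c2 c3 hpp k x c4 c5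
    rw [Pool.Agent.Q285.PO.vl_prod, Finset.prod_eq_zero_iff] at h3
    obtain ⟨i, _, hi⟩ := h3
    exact hx i hi
  · intro k _ _ x a j l c1 c2 c3 c4 c5
    rw [hRel] at c5
    exact hone k x (d6 a j l c2 c3 c4 hpp k x c1 c5)
  · intro k _ _ x t j l c1 c2 c3 c5
    rw [hRel] at c5
    exact hone k x (d7 t j l c2 c3 hpp k x c1 c5)

end Pool.Agent.Q26.PO
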