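import Pool.Agent.Q170.PO.St2
import Pool.Agent.Q210.PO.FCN

/-!
# A coordinate of a rational curve in general position is not constant
-/

set_option autoImplicit false

open Polynomial

namespace Pool.Agent.Q26.PO

open Pool.Agent.Q170.PO Pool.Agent.Q210.PO

/-- JOB PX-FCN -/
theorem fcn2 : S_FCN2 := by
  intro n d p f g hp hG m hm i c
  have : Fact p.Prime := ⟨hp⟩
  let P : ℂ[X] := (f i).map (Int.castRingHom ℂ) - C (c * m) * (g i).map (Int.castRingHom ℂ)
  have hP : P ≠ 0 := by
    intro hP
    have hP : (f i).map (Int.castRingHom ℂ) = C (c * m) * (g i).map (Int.castRingHom ℂ) :=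
      sub_eq_zero.1 hP
    have hpos := hG.pos i
    have hf0 : f i ≠ 0 := by
      intro h0
      unfold rd at hpos
      rw [h0, Polynomial.map_zero, natDegree_zero] at hpos
      exact lt_irrefl _ hpos
    have hg0 : g i ≠ 0 := by
      intro h0
      rw [h0, Polynomial.map_zero, mul_zero] at hP
      exact hf0 ((Polynomial.map_eq_zero_iff (RingHom.injective_int _)).1 hP)
    obtain ⟨k, hk⟩ : ∃ k, (g i).coeff k ≠ 0 := by
      by_contra hcon
      push Not at hcon
      exact hg0 (ext fun k => by rw [hcon k, coeff_zero])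
    refine not_prop p (f i) (g i) hpos (hG.copg i i) ((f i).coeff k) ((g i).coeff k) hk ?_
    apply Polynomial.map_injective (Int.castRingHom ℂ) (RingHom.injective_int _)
    have h1 := congrArg (fun q : ℂ[X] => q.coeff k) hP
    simp only [coeff_map, coeff_C_mul] at h1
    rw [Polynomial.map_mul, Polynomial.map_mul, map_C, map_C, hP, h1]
    simp only [C_mul]
    ring
  refine (P.roots.toFinset.finite_toSet).subset ?_
  rintro s ⟨hs, hc⟩
  rw [Finset.mem_coe, Multiset.mem_toFinset, mem_roots hP]
  have hmC : (m : ℂ) ≠ 0 := Int.cast_ne_zero.2 hm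
  rw [div_eq_iff (mul_ne_zero hmC hs)] at hc
  show P.eval s = 0
  simp only [P, eval_sub, eval_mul, eval_C]
  rw [eval_map, eval_map]
  have hc' : eval₂ (Int.castRingHom ℂ) s (f i) =
      c * (m * eval₂ (Int.castRingHom ℂ) s (g i)) := hc
  rw [hc']
  ring

end Pool.Agent.Q26.PO
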