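import Pool.Agent.Q170.PO.St2
import Pool.Agent.Q239.PO.FPS

/-! Job PX-FPS of helper170: a modular equation between two coordinates of a rational curve in
general position has finitely many solutions, all algebraic. -/

set_option autoImplicit false
set_option linter.unusedSectionVars false

open UpperHalfPlane H294ZP Polynomial

namespace Pool.Agent.Q26.PO

open Pool.Agent.Y226 Pool.Agent.Y226.ZG Pool.Agent.Y226.ZM Pool.Agent.Q170.PO Pool.Agent.Q239.PO

section hom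

variable {S T : Type*} [CommRing S] [CommRing T]

/-- the modular equation, homogeneous in both pairs of variables with different denominators -/
noncomputable def PH2 (φ : ZZ →+* S) (P : ℕ → ZZ[X]) (D M : ℕ) (a b t t' : S) : S :=
  ∑ i ∈ Finset.range (D + 1), (∑ k ∈ Finset.range (M + 1),
    φ ((P i).coeff k) * a ^ k * t ^ (M - k)) * b ^ i * t' ^ (D - i)

theorem map_PH2 (φ : ZZ →+* S) (f : S →+* T) (P : ℕ → ZZ[X]) (D M : ℕ) (a b t t' : S) :
    f (PH2 φ P D M a b t t') = PH2 (f.comp φ) P D M (f a) (f b) (f t) (f t') := by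
  unfold PH2
  simp only [map_sum, map_mul, map_pow, RingHom.comp_apply]

theorem PH2_eq (φ : ZZ →+* S) (P : ℕ → ZZ[X]) (D M : ℕ) (hM : ∀ i ≤ D, (P i).natDegree ≤ M)
    (x y t t' : S) : PH2 φ P D M (x * t) (y * t') t t' = PsiE φ P D x y * (t ^ M * t' ^ D) := by
  unfold PH2 PsiE
  rw [Finset.sum_mul]
  refine Finset.sum_congr rfl fun i hi => ?_
  have hi' : i ≤ D := Nat.lt_succ_iff.1 (Finset.mem_range.1 hi)
  rw [eval₂_eq_sum_range' φ (Nat.lt_succ_of_le (hM i hi')) x]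
  have h1 : ∑ k ∈ Finset.range (M + 1), φ ((P i).coeff k) * (x * t) ^ k * t ^ (M - k) =
      (∑ k ∈ Finset.range (M + 1), φ ((P i).coeff k) * x ^ k) * t ^ M := by
    rw [Finset.sum_mul]
    refine Finset.sum_congr rfl fun k hk => ?_
    have hk' : k ≤ M := Nat.lt_succ_iff.1 (Finset.mem_range.1 hk)
    have e : t ^ M = t ^ k * t ^ (M - k) := by rw [← pow_add, Nat.add_sub_cancel' hk']
    rw [e, mul_pow]
    ring
  rw [h1]
  have e : t' ^ D = t' ^ i * t' ^ (D - i) := by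
    rw [← pow_add, Nat.add_sub_cancel' hi']
  rw [e, mul_pow]
  ring

end hom

/-- JOB PX-FPS -/
theorem fps2 : S_FPS2 := by
  intro n d p f g hp hG m hm hpm j l hjl N hN
  have hpf : Fact p.Prime := ⟨hp⟩
  obtain ⟨M, hM⟩ : ∃ M : ℕ, ∀ i ≤ mD N, (mP N i).natDegree ≤ M :=
    ⟨(Finset.range (mD N + 1)).sup fun i => (mP N i).natDegree, fun i hi =>
      Finset.le_sup (f := fun i => (mP N i).natDegree) (Finset.mem_range.2 (Nat.lt_succ_of_le hi))⟩
  refine ⟨PH2 (Polynomial.C.comp iA) (mP N) (mD N) M (vl (f l) (X : QA[X])) (vl (f j) (X : QA[X]))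
    ((m : QA[X]) * vl (g l) (X : QA[X])) ((m : QA[X]) * vl (g j) (X : QA[X])), ?_, ?_⟩
  · intro h0
    obtain ⟨𝒞, _, _, _, _, _, φ, hφ⟩ := exists_padic p
    have hp1 : ‖(p : 𝒞)‖ < 1 := by
      rw [hφ]
      exact inv_lt_one_of_one_lt₀ (by exact_mod_cast hp.one_lt)
    obtain ⟨k, _, _, _, red, hred, hsurj⟩ :=
      Pool.Agent.Y61.ZX.exists_residue3 (C := 𝒞) (p := p) hp1
    obtain ⟨ρ, hρ0, hρ1⟩ := exists_small_root hp1 φ (f j) (hG.pos j)
    have hz : ‖vl (f j) (φ ρ)‖ < 1 := by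
      rw [← vl_map, hρ0, map_zero, norm_zero]
      exact one_pos
    have hg1 : ‖vl (g l) (φ ρ)‖ = 1 := vl_cop red hred (hG.copg j l) hρ1 hz
    have hg2 : ‖vl (g j) (φ ρ)‖ = 1 := vl_cop red hred (hG.copg j j) hρ1 hz
    have hl1 : ‖vl (f l) (φ ρ)‖ = 1 := vl_cop red hred (hG.cop j l hjl) hρ1 hz
    have hm1 : ‖(m : 𝒞)‖ < 1 := by
      obtain ⟨c, rfl⟩ := hpm
      rw [Int.cast_mul, Int.cast_natCast, norm_mul]
      calc ‖(p : 𝒞)‖ * ‖(c : 𝒞)‖ ≤ ‖(p : 𝒞)‖ * 1 :=
            mul_le_mul_of_nonneg_left (nint c) (norm_nonneg _)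
        _ < 1 := by rw [mul_one]; exact hp1
    have hm0 : 0 < ‖(m : 𝒞)‖ := norm_pos_iff.2 (Int.cast_ne_zero.2 hm)
    have hT0 : (m : QA) * vl (g l) ρ ≠ 0 := by
      refine mul_ne_zero (Int.cast_ne_zero.2 hm) fun h => ?_
      rw [← vl_map, h, map_zero, norm_zero] at hg1
      exact zero_ne_one hg1
    have hT1 : (m : QA) * vl (g j) ρ ≠ 0 := by
      refine mul_ne_zero (Int.cast_ne_zero.2 hm) fun h => ?_
      rw [← vl_map, h, map_zero, norm_zero] at hg2
      exact zero_ne_one hg2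
    have h1 := congrArg (evalRingHom ρ) h0
    rw [map_PH2, map_zero, vl_map, vl_map, map_mul, map_mul, map_intCast, vl_map, vl_map,
      coe_evalRingHom, eval_X, hρ0] at h1
    have h2 : (evalRingHom ρ).comp (Polynomial.C.comp iA) = iA := by
      refine RingHom.ext fun z => ?_
      simp
    rw [h2] at h1
    have h3 : vl (f l) ρ = vl (f l) ρ / (m * vl (g l) ρ) * (m * vl (g l) ρ) := by
      rw [div_mul_cancel₀ _ hT0]
    rw [h3, ← zero_mul ((m : QA) * vl (g j) ρ), PH2_eq iA _ _ _ hM] at h1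
    have h4 : PsiE iA (mP N) (mD N) (vl (f l) ρ / (m * vl (g l) ρ)) 0 = 0 :=
      (mul_eq_zero.1 (h1.trans (zero_mul _))).resolve_right
        (mul_ne_zero (pow_ne_zero _ hT0) (pow_ne_zero _ hT1))
    have h5 : PsiE ιZ (mP N) (mD N) (rA (vl (f l) ρ / (m * vl (g l) ρ))) (rA 0) = 0 := by
      rw [← rA_comp, ← map_PsiE, h4, map_zero]
    have h6 : 1 < ‖φ (vl (f l) ρ / (m * vl (g l) ρ))‖ := by
      rw [map_div₀, map_mul, map_intCast, vl_map, vl_map, norm_div, norm_mul, hl1, hg1, mul_one,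
        one_div]
      exact (one_lt_inv₀ hm0).2 hm1
    have h7 := (Pool.Agent.Q14.UZ.t_TAT 𝒞 φ N hN _ _ h6 h5).1
    rw [map_zero, norm_zero] at h7
    linarith
  · intro s hsj hsl hrel
    have hT0 : (m : ℂ) * vl (g l) s ≠ 0 := mul_ne_zero (Int.cast_ne_zero.2 hm) hsl
    have hT1 : (m : ℂ) * vl (g j) s ≠ 0 := mul_ne_zero (Int.cast_ne_zero.2 hm) hsj
    have h1 := map_PH2 (Polynomial.C.comp iA) ((evalRingHom s).comp (mapRingHom rA)) (mP N) (mD N) M
      (vl (f l) (X : QA[X])) (vl (f j) (X : QA[X])) ((m : QA[X]) * vl (g l) (X : QA[X]))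
      ((m : QA[X]) * vl (g j) (X : QA[X]))
    have h2 : ((evalRingHom s).comp (mapRingHom rA)).comp (Polynomial.C.comp iA) = ιZ := by
      rw [← rA_comp]
      refine RingHom.ext fun z => ?_
      simp
    have h3 : ((evalRingHom s).comp (mapRingHom rA)) (X : QA[X]) = s := by simp
    rw [h2, vl_map, vl_map, map_mul, map_mul, map_intCast, vl_map, vl_map, h3] at h1
    have h4 : vl (f l) s = vl (f l) s / (m * vl (g l) s) * (m * vl (g l) s) := by
      rw [div_mul_cancel₀ _ hT0]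
    have h5 : vl (f j) s = vl (f j) s / (m * vl (g j) s) * (m * vl (g j) s) := by
      rw [div_mul_cancel₀ _ hT1]
    rw [h4, h5, PH2_eq ιZ _ _ _ hM, hrel, zero_mul] at h1
    exact h1

end Pool.Agent.Q26.PO
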